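import Mathlib

/-!
A length-increasing multiplicative well-quasi-order on the words over a two-letter alphabet which
contains no derivation relation of a finite production system that is a well-quasi-order.
-/

set_option autoImplicit false

namespace Pool.Agent.Results.MP_577ba1_lc.NoFiniteSubsystem

/-- A relation is a well-quasi-order: reflexive, transitive, and every infinite sequence has
indices `i < j` with `f i ≤ f j`. -/
def IsWqo {X : Type} (r : X → X → Prop) : Prop :=
  (∀ x, r x x) ∧ (∀ x y z, r x y → r y z → r x z) ∧ ∀ f : ℕ → X, ∃ i j, i < j ∧ r (f i) (f j)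

/-- A relation on words is multiplicative: `x ≤ y` implies `uxv ≤ uyv`. -/
def Multiplicative {A : Type} (r : List A → List A → Prop) : Prop :=
  ∀ x y, r x y → ∀ u v : List A, r (u ++ x ++ v) (u ++ y ++ v)

/-- A relation on words is length-increasing: `x ≤ y` implies `|x| ≤ |y|`. -/
def LengthIncreasing {A : Type} (r : List A → List A → Prop) : Prop :=
  ∀ x y, r x y → x.length ≤ y.length

/-- One step of the production system `P` (a rule `u → v` is the pair `(u, v)`). -/
def Step {A : Type} (P : Finset (List A × List A)) (x y : List A) : Prop :=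
  ∃ s t : List A, ∃ p ∈ P, x = s ++ p.1 ++ t ∧ y = s ++ p.2 ++ t

/-- The derivation relation: the reflexive-transitive closure of `Step`. -/
def Derives {A : Type} (P : Finset (List A × List A)) : List A → List A → Prop :=
  Relation.ReflTransGen (Step P)

/-- The relation used: words with at least two `true`s are compared by length, the other ones by
the subword order within the words with the same number of `true`s. -/
def R (x y : List Bool) : Prop :=
  (2 ≤ x.count true ∧ 2 ≤ y.count true ∧ x.length ≤ y.length) ∨
    (x.count true = y.count true ∧ x.Sublist y)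

theorem R_wqo : IsWqo R := by
  refine ⟨fun x => Or.inr ⟨rfl, List.Sublist.refl x⟩, ?_, ?_⟩
  · rintro x y z (⟨h1, h2, h3⟩ | ⟨h1, h2⟩) (⟨h4, h5, h6⟩ | ⟨h4, h5⟩)
    · exact Or.inl ⟨h1, h5, h3.trans h6⟩
    · exact Or.inl ⟨h1, h4 ▸ h2, h3.trans h5.length_le⟩
    · exact Or.inl ⟨h1 ▸ h4, h5, h2.length_le.trans h6⟩
    · exact Or.inr ⟨h1.trans h4, h2.trans h5⟩
  · intro f
    have hfin : (Set.univ : Set Bool).PartiallyWellOrderedOn (· = ·) :=
      (Set.toFinite _).partiallyWellOrderedOn
    have hH := Set.PartiallyWellOrderedOn.partiallyWellOrderedOn_sublistForall₂ (· = ·) hfin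
    have : IsPreorder (List Bool) (List.SublistForall₂ fun x1 x2 : Bool => x1 = x2) :=
      { refl := fun a => refl_of (List.SublistForall₂ fun x1 x2 : Bool => x1 = x2) a
        trans := fun a b c => trans_of (List.SublistForall₂ fun x1 x2 : Bool => x1 = x2) }
    obtain ⟨g, hg⟩ := hH.exists_monotone_subseq (f := f) (by simp)
    have hsub : ∀ m n, m ≤ n → (f (g m)).Sublist (f (g n)) := by
      intro m n hmn
      have h1 := hg m n hmn
      rw [List.sublistForall₂_iff] at h1
      obtain ⟨l, hl, hl'⟩ := h1
      rw [List.forall₂_eq_eq_eq] at hl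
      rw [hl]
      exact hl'
    let c : Fin 4 → Fin 3 := fun m => ⟨min ((f (g m.val)).count true) 2, by omega⟩
    obtain ⟨m, n, hmn, hc⟩ := Fintype.exists_ne_map_eq_of_card_lt c (by simp)
    wlog hlt : m < n generalizing m n
    · exact this n m hmn.symm hc.symm (lt_of_le_of_ne (not_lt.mp hlt) hmn.symm)
    refine ⟨g m.val, g n.val, g.strictMono hlt, ?_⟩
    have hs := hsub m.val n.val hlt.le
    have hc' : min ((f (g m.val)).count true) 2 = min ((f (g n.val)).count true) 2 := by
      simpa [c] using hc
    by_cases h2 : 2 ≤ (f (g m.val)).count true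
    · exact Or.inl ⟨h2, by omega, hs.length_le⟩
    · exact Or.inr ⟨by omega, hs⟩

theorem R_mul : Multiplicative R := by
  rintro x y (⟨h1, h2, h3⟩ | ⟨h1, h2⟩) u v
  · refine Or.inl ⟨?_, ?_, ?_⟩
    · simp only [List.count_append]; omega
    · simp only [List.count_append]; omega
    · simp only [List.length_append]; omega
  · refine Or.inr ⟨?_, ?_⟩
    · simp only [List.count_append]; omega
    · exact (h2.append_left u).append_right v

theorem R_len : LengthIncreasing R := by
  rintro x y (⟨h1, h2, h3⟩ | ⟨h1, h2⟩)
  · exact h3
  · exact h2.length_le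

/-- `Sp n c w`: before the first `true` of `w` there are at least `c` letters, and between two
consecutive `true`s there are at least `n` letters. -/
def Sp (n : ℕ) : ℕ → List Bool → Prop
  | _, [] => True
  | c, false :: w => Sp n (c - 1) w
  | c, true :: w => c = 0 ∧ Sp n n w

theorem sp_zero {n : ℕ} : ∀ {c : ℕ} {u t : List Bool}, Sp n c (u ++ t) → u.length ≤ c →
    u.count true = 0
  | _, [], _, _, _ => by simp
  | c, false :: u, t, h, hl => by
      have := sp_zero (c := c - 1) (u := u) (t := t) h (by simp at hl; omega)
      simpa using this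
  | c, true :: u, t, h, hl => by
      have := h.1
      simp at hl
      omega

theorem sp_one {n : ℕ} : ∀ {c : ℕ} {u t : List Bool}, Sp n c (u ++ t) → u.length ≤ n →
    u.count true ≤ 1
  | _, [], _, _, _ => by simp
  | c, false :: u, t, h, hl => by
      have := sp_one (c := c - 1) (u := u) (t := t) h (by simp at hl; omega)
      simpa using this
  | c, true :: u, t, h, hl => by
      have := sp_zero (u := u) (t := t) h.2 (by simp at hl; omega)
      simp [this]

theorem sp_factor {n : ℕ} : ∀ {c : ℕ} {s u t : List Bool}, Sp n c (s ++ u ++ t) →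
    u.length ≤ n → u.count true ≤ 1
  | _, [], u, t, h, hl => sp_one (t := t) (by simpa using h) hl
  | c, false :: s, u, t, h, hl => sp_factor (c := c - 1) (s := s) (t := t) h hl
  | c, true :: s, u, t, h, hl => sp_factor (c := n) (s := s) (t := t) h.2 hl

/-- The words `(true falseⁿ)ᵏ`. -/
def g (n : ℕ) : ℕ → List Bool
  | 0 => []
  | k + 1 => true :: (List.replicate n false ++ g n k)

theorem sp_replicate {n : ℕ} {w : List Bool} (hw : Sp n 0 w) :
    ∀ m, Sp n m (List.replicate m false ++ w)
  | 0 => by simpa using hw
  | m + 1 => by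
      rw [List.replicate_succ]
      exact sp_replicate hw m

theorem sp_g (n : ℕ) : ∀ k, Sp n 0 (g n k)
  | 0 => trivial
  | k + 1 => ⟨rfl, sp_replicate (sp_g n k) n⟩

theorem count_g (n : ℕ) : ∀ k, (g n k).count true = k
  | 0 => rfl
  | k + 1 => by
      simp [g, count_g n k, List.count_replicate]

/-- Inserting `false`s keeps the property that short factors have at most one `true`. -/
theorem factor_of_sublist {n : ℕ} {w y : List Bool} (hw : Sp n 0 w) (hs : w.Sublist y)
    (hc : w.count true = y.count true) {s u t : List Bool} (hy : y = s ++ u ++ t)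
    (hu : u.length ≤ n) : u.count true ≤ 1 := by
  subst hy
  obtain ⟨w12, w3, rfl, h12, h3⟩ := List.sublist_append_iff.mp hs
  obtain ⟨w1, w2, rfl, h1, h2⟩ := List.sublist_append_iff.mp h12
  have c1 := h1.count_le true
  have c2 := h2.count_le true
  have c3 := h3.count_le true
  simp only [List.count_append] at hc
  have := sp_factor hw (h2.length_le.trans hu)
  omega

theorem derives_aux {P : Finset (List Bool × List Bool)} (hP : ∀ p ∈ P, R p.1 p.2) {n : ℕ}
    (hn : ∀ p ∈ P, p.1.length ≤ n) {w y : List Bool} (hw : Sp n 0 w) (h : Derives P w y) :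
    w.Sublist y ∧ w.count true = y.count true := by
  induction h with
  | refl => exact ⟨List.Sublist.refl _, rfl⟩
  | @tail y z _ hstep ih =>
    obtain ⟨s, t, p, hp, hy, rfl⟩ := hstep
    have h1 := factor_of_sublist hw ih.1 ih.2 hy (hn p hp)
    rcases hP p hp with ⟨h2, -, -⟩ | ⟨h2, h3⟩
    · omega
    · refine ⟨ih.1.trans ?_, ih.2.trans ?_⟩
      · rw [hy]
        exact (h3.append_left s).append_right t
      · rw [hy]
        simp only [List.count_append]
        omega

/-- **Theorem.** Over the alphabet `{true, false}` there is a length-increasing multiplicative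
well-quasi-order `≤` on the words such that for every finite production system `P` with nonempty
left and right sides, all of whose rules `u → v` satisfy `u ≤ v`, the derivation relation of `P` is
not a well-quasi-order. -/
theorem result : ∃ r : List Bool → List Bool → Prop,
    IsWqo r ∧ Multiplicative r ∧ LengthIncreasing r ∧
      ∀ P : Finset (List Bool × List Bool),
        (∀ p ∈ P, p.1 ≠ [] ∧ p.2 ≠ [] ∧ r p.1 p.2) → ¬ IsWqo (Derives P) := by
  refine ⟨R, R_wqo, R_mul, R_len, ?_⟩
  intro P hP hwqo
  let n := P.sup fun p => p.1.length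
  have hn : ∀ p ∈ P, p.1.length ≤ n := fun p hp => Finset.le_sup (f := fun p => p.1.length) hp
  obtain ⟨i, j, hij, h⟩ := hwqo.2.2 (g n)
  have := (derives_aux (fun p hp => (hP p hp).2.2) hn (sp_g n i) h).2
  rw [count_g, count_g] at this
  omega

end Pool.Agent.Results.MP_577ba1_lc.NoFiniteSubsystem
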